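import Pool.Agent.H38.AG.Targets
import Pool.Agent.H38.RD.SMH

/-!
# EDH: the data of the machine for products of numbers of a class
-/

set_option autoImplicit false

open Pool.Agent.H38.RB Pool.Agent.H38.PS Pool.Agent.H82.RD Pool.Agent.H38.AB Pool.Agent.H38.AG

namespace Pool.Agent.H83.AG

open Pool.Agent.H38.RD

/-- the relation of two elements of the class, additively -/
theorem rel_two (hLRL : T_LRL) (q : ℕ) [hq : Fact q.Prime] (e : ℕ) (ζ : ℕ → ℕ)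
    (hζ : ∀ m : ℕ, m.Coprime q → m ^ ph q ≡ (1 + qh q) ^ ζ m [MOD q ^ e]) (S : Finset ℕ)
    (p p' v : ℕ) (α γ : ℕ → ℕ) (hS : ∀ l ∈ S, l.Coprime q) (hp : p.Coprime q)
    (hp' : p'.Coprime q)
    (h : p ^ v * ∏ l ∈ S, l ^ α l ≡ p' ^ v * ∏ l ∈ S, l ^ γ l [MOD q ^ e]) :
    (q : ℤ_[q]) ^ (e - 3) ∣ (v : ℤ_[q]) * ((ζ p : ℤ_[q]) - (ζ p' : ℤ_[q])) -
      ∑ l ∈ S, ((γ l : ℤ_[q]) - (α l : ℤ_[q])) * (ζ l : ℤ_[q]) := by
  classical
  have h1 := hLRL q e ζ (Option (Option ℕ)) (Finset.insertNone (Finset.insertNone S))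
    (fun i => i.elim p fun j => j.elim p' fun l => l)
    (fun i => i.elim 0 fun j => j.elim v fun l => γ l)
    (fun i => i.elim v fun j => j.elim 0 fun l => α l) hq.1 hζ
    (by
      intro i hi
      rcases i with _ | i
      · exact hp
      · rcases i with _ | l
        · exact hp'
        · have h2 : l ∈ S := by
            rw [Finset.some_mem_insertNone, Finset.some_mem_insertNone] at hi
            exact hi
          exact hS l h2)
    (by
      simp only [Finset.prod_insertNone, Option.elim_none, Option.elim_some, pow_zero, one_mul]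
      exact h.pow 2)
  simp only [Finset.sum_insertNone, Option.elim_none, Option.elim_some, zero_mul, zero_add] at h1
  have h2 := cast_modEq q h1
  push_cast at h2
  have h3 : (v : ℤ_[q]) * (ζ p : ℤ_[q]) + ∑ l ∈ S, (α l : ℤ_[q]) * (ζ l : ℤ_[q]) -
      ((v : ℤ_[q]) * (ζ p' : ℤ_[q]) + ∑ l ∈ S, (γ l : ℤ_[q]) * (ζ l : ℤ_[q])) =
      (v : ℤ_[q]) * ((ζ p : ℤ_[q]) - (ζ p' : ℤ_[q])) -
      ∑ l ∈ S, ((γ l : ℤ_[q]) - (α l : ℤ_[q])) * (ζ l : ℤ_[q]) := by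
    rw [Finset.sum_congr rfl fun l _ => sub_mul (γ l : ℤ_[q]) (α l : ℤ_[q]) (ζ l : ℤ_[q]),
      Finset.sum_sub_distrib]
    ring
  rw [h3] at h2
  exact h2

theorem mhyp_empty (q : ℕ) [hq : Fact q.Prime] (u e D H : ℕ) (T : Finset ℕ) (hT : T = ∅) :
    MHyp q u T (fun _ _ => (0 : ℤ_[q])) (fun n => n) (fun _ => 1) (fun _ _ => 0) (fun _ => 0) 0 e
      (1 + qh q) D H := by
  subst hT
  refine ⟨?_, ?_, ?_, ?_, ?_, by omega, ?_, ?_⟩
  · intro s hs; exact absurd hs (Finset.notMem_empty s)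
  · intro s hs; exact absurd hs (Finset.notMem_empty s)
  · intro s hs; exact absurd hs (Finset.notMem_empty s)
  · intro s hs; exact absurd hs (Finset.notMem_empty s)
  · intro s hs; exact absurd hs (Finset.notMem_empty s)
  · rw [Nat.add_sub_cancel_left]
    exact dvd_qh q
  · intro s hs; exact absurd hs (Finset.notMem_empty s)

theorem pf_EDH (hLDL : T_LDL) (hLPR : T_LPR) (hLRL : T_LRL) : T_EDH := by
  intro q hq e τ c v Bd PB S P hτ hv hvB hS hP hrel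
  classical
  rcases P.eq_empty_or_nonempty with hPe | ⟨p0, hp0⟩
  · refine ⟨0, fun _ _ => 0, fun _ => 1, fun _ _ => 0, fun _ => 0, ?_, ?_⟩
    · rw [pow_zero]
      exact Nat.one_le_iff_ne_zero.2 (Nat.mul_ne_zero hq.1.ne_zero (by omega))
    · refine mhyp_empty q S.card (e - 3) (τ * Bd) (PB ^ τ) _ ?_
      rw [hPe]
      have h1 : (Fintype.piFinset fun _ : Fin τ => (∅ : Finset ℕ)) = ∅ := by
        rw [Finset.eq_empty_iff_forall_notMem]
        intro t ht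
        rw [Fintype.mem_piFinset] at ht
        exact absurd (ht ⟨0, by omega⟩) (Finset.notMem_empty _)
      rw [h1, Finset.image_empty, Finset.filter_empty]
  obtain ⟨ζ0, hζ0⟩ := exists_log hLDL q e hq.1
  obtain ⟨θ, hθ⟩ := exists_theta q
  obtain ⟨k0, v', hv', hvv⟩ := Nat.exists_eq_pow_mul_and_not_dvd (n := v) (by omega) q
    hq.1.ne_one
  have hv'0 : 1 ≤ v' := by
    rcases Nat.eq_zero_or_pos v' with h | h
    · exact absurd (h ▸ dvd_zero q) hv'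
    · exact h
  have hqk : 1 ≤ q ^ k0 := Nat.one_le_pow _ _ hq.1.pos
  have hv'v : v' ≤ v := by
    rw [hvv]
    exact Nat.le_mul_of_pos_left _ hqk
  have hqv : q ^ k0 ≤ v := by
    rw [hvv]
    exact Nat.le_mul_of_pos_right _ hv'0
  obtain ⟨u, hu⟩ : ∃ u : ℤ_[q], (v' : ℤ_[q]) * u = 1 := by
    have hun : IsUnit (v' : ℤ_[q]) := by
      rw [PadicInt.isUnit_iff, PadicInt.norm_natCast_eq_one_iff]
      exact (Nat.Prime.coprime_iff_not_dvd hq.1).2 hv'
    obtain ⟨w, hw⟩ := hun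
    exact ⟨↑(w⁻¹), by rw [← hw, Units.mul_inv]⟩
  have hvu : (v : ℤ_[q]) * u = (q : ℤ_[q]) ^ k0 := by
    rw [hvv]
    push_cast
    rw [mul_assoc, hu, mul_one]
  have hαγ : ∀ p : ℕ, ∃ α γ : ℕ → ℕ, p ∈ P → (∀ l, α l ≤ Bd ∧ γ l ≤ Bd) ∧
      p ^ v * ∏ l ∈ S, l ^ α l ≡ p0 ^ v * ∏ l ∈ S, l ^ γ l [MOD q ^ e] := by
    intro p
    by_cases hp : p ∈ P
    · obtain ⟨α, γ, h⟩ := hrel p hp p0 hp0
      exact ⟨α, γ, fun _ => h⟩
    · exact ⟨0, 0, fun h => absurd h hp⟩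
  choose α γ hαγ using hαγ
  obtain ⟨L, hLdef⟩ : ∃ L : Fin S.card → ℕ, L = fun i => (S.equivFin.symm i : ℕ) := ⟨_, rfl⟩
  have hL : ∀ i, L i ∈ S := fun i => by
    rw [hLdef]
    exact (S.equivFin.symm i).2
  have hLsum : ∀ f : ℕ → ℤ_[q], ∑ l ∈ S, f l = ∑ i, f (L i) := by
    intro f
    rw [← Finset.sum_coe_sort S f, ← Equiv.sum_comp S.equivFin.symm, hLdef]
  -- the tuple of an element
  have ht : ∀ n : ℕ, ∃ t : Fin τ → ℕ, n ∈ (Fintype.piFinset fun _ : Fin τ => P).image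
      (fun t => ∏ i, t i) → (∀ i, t i ∈ P) ∧ ∏ i, t i = n := by
    intro n
    by_cases hn : n ∈ (Fintype.piFinset fun _ : Fin τ => P).image (fun t => ∏ i, t i)
    · obtain ⟨t, ht1, ht2⟩ := Finset.mem_image.1 hn
      exact ⟨t, fun _ => ⟨fun i => Fintype.mem_piFinset.1 ht1 i, ht2⟩⟩
    · exact ⟨fun _ => 0, fun h => absurd h hn⟩
  choose t ht using ht
  obtain ⟨W, hW⟩ : ∃ W : ℕ → Fin S.card → ℤ_[q],
      W = fun n l => ∑ i, ((γ (t n i) (L l) : ℤ_[q]) - (α (t n i) (L l) : ℤ_[q])) * u := ⟨_, rfl⟩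
  obtain ⟨num, hnum⟩ : ∃ num : ℕ → Fin S.card → ℤ,
      num = fun n l => ∑ i, ((γ (t n i) (L l) : ℤ) - (α (t n i) (L l) : ℤ)) := ⟨_, rfl⟩
  have hmem : ∀ n ∈ ((Fintype.piFinset fun _ : Fin τ => P).image fun t => ∏ i, t i).filter
      (fun n => n % qh q = c), (∀ i, t n i ∈ P) ∧ ∏ i, t n i = n ∧ n % qh q = c := by
    intro n hn
    rw [Finset.mem_filter] at hn
    exact ⟨(ht n hn.1).1, (ht n hn.1).2, hn.2⟩
  have hBd : 1 ≤ Bd := hv.trans hvB
  refine ⟨k0 + 1, W, fun _ => v', num, fun i => θ * (ζ0 (L i) : ℤ_[q]),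
    ?_, ?_, ?_, ?_, ?_, ?_, ?_, ?_, ?_⟩
  · rw [pow_succ, mul_comm]
    exact Nat.mul_le_mul_left _ hqv
  · intro n hn
    obtain ⟨h1, h2, -⟩ := hmem n hn
    refine ⟨?_, ?_⟩
    · rw [← h2]
      exact Nat.succ_le_iff.2 (Finset.prod_pos fun i _ => (hP _ (h1 i)).1)
    · rw [← h2]
      calc ∏ i, t n i ≤ PB ^ (Finset.univ : Finset (Fin τ)).card :=
            Finset.prod_le_pow_card _ _ _ fun i _ => (hP _ (h1 i)).2.1
        _ = PB ^ τ := by rw [Finset.card_univ, Fintype.card_fin]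
  · intro n _ n' _ h
    exact h
  · intro n _
    refine ⟨hv'0, (hv'v.trans hvB).trans ?_⟩
    exact Nat.le_mul_of_pos_left _ hτ
  · intro n hn l
    obtain ⟨h1, -, -⟩ := hmem n hn
    rw [hnum]
    refine (Finset.abs_sum_le_sum_abs _ _).trans ?_
    have hterm : ∀ i ∈ (Finset.univ : Finset (Fin τ)),
        |(γ (t n i) (L l) : ℤ) - (α (t n i) (L l) : ℤ)| ≤ (Bd : ℤ) := by
      intro i _
      have hb := (hαγ (t n i) (h1 i)).1 (L l)
      rw [abs_le]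
      constructor <;> omega
    calc ∑ i, |(γ (t n i) (L l) : ℤ) - (α (t n i) (L l) : ℤ)| ≤
        (Finset.univ : Finset (Fin τ)).card • (Bd : ℤ) := Finset.sum_le_card_nsmul _ _ _ hterm
      _ = ((τ * Bd : ℕ) : ℤ) := by
          rw [Finset.card_univ, Fintype.card_fin, nsmul_eq_mul]
          push_cast
          rfl
  · intro n _ l
    rw [hW, hnum]
    simp only []
    push_cast
    rw [Finset.mul_sum]
    refine Finset.sum_congr rfl fun i _ => ?_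
    rw [mul_left_comm, hu, mul_one]
  · exact (Nat.le_add_right 1 _)
  · rw [Nat.add_sub_cancel_left]
    exact dvd_qh q
  · intro n hn n' hn'
    obtain ⟨h1, h2, h3⟩ := hmem n hn
    obtain ⟨h1', h2', h3'⟩ := hmem n' hn'
    obtain ⟨z, hz1, hz2⟩ := hLPR q e ζ0 (Fin τ ⊕ Fin τ) Finset.univ (Sum.elim (t n) (t n'))
      (Sum.elim (fun _ => 1) fun _ => 0) (Sum.elim (fun _ => 0) fun _ => 1) hq.1 hζ0
      (by
        intro i _
        rcases i with i | i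
        · exact (hP _ (h1 i)).2.2
        · exact (hP _ (h1' i)).2.2)
      (by
        simp only [Fintype.prod_sum_type, Sum.elim_inl, Sum.elim_inr, pow_one, pow_zero,
          Finset.prod_const_one, mul_one, one_mul]
        rw [h2, h2']
        exact h3.trans h3'.symm)
    simp only [Fintype.prod_sum_type, Fintype.sum_sum_type, Sum.elim_inl, Sum.elim_inr, pow_one,
      pow_zero, Finset.prod_const_one, mul_one, one_mul, zero_mul, Finset.sum_const_zero,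
      add_zero, zero_add] at hz1 hz2
    rw [h2, h2'] at hz1
    have hrl : ∀ m : ℕ, (∀ i, t m i ∈ P) → (q : ℤ_[q]) ^ (e - 3) ∣
        (q : ℤ_[q]) ^ k0 * (∑ i, ((ζ0 (t m i) : ℤ_[q]) - (ζ0 p0 : ℤ_[q]))) -
          ∑ l, W m l * (ζ0 (L l) : ℤ_[q]) := by
      intro m hm
      have h5 : (q : ℤ_[q]) ^ k0 * (∑ i, ((ζ0 (t m i) : ℤ_[q]) - (ζ0 p0 : ℤ_[q]))) -
          ∑ l, W m l * (ζ0 (L l) : ℤ_[q]) =
          ∑ i, u * ((v : ℤ_[q]) * ((ζ0 (t m i) : ℤ_[q]) - (ζ0 p0 : ℤ_[q])) -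
            ∑ l ∈ S, ((γ (t m i) l : ℤ_[q]) - (α (t m i) l : ℤ_[q])) * (ζ0 l : ℤ_[q])) := by
        have h6 : ∑ l, W m l * (ζ0 (L l) : ℤ_[q]) = ∑ i, u *
            ∑ l ∈ S, ((γ (t m i) l : ℤ_[q]) - (α (t m i) l : ℤ_[q])) * (ζ0 l : ℤ_[q]) := by
          rw [hW]
          simp only [Finset.sum_mul]
          rw [Finset.sum_comm]
          refine Finset.sum_congr rfl fun i _ => ?_
          rw [hLsum, Finset.mul_sum]
          refine Finset.sum_congr rfl fun l _ => ?_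
          ring
        rw [h6, Finset.mul_sum, ← Finset.sum_sub_distrib]
        refine Finset.sum_congr rfl fun i _ => ?_
        rw [← hvu]
        ring
      rw [h5]
      refine Finset.dvd_sum fun i _ => Dvd.dvd.mul_left ?_ _
      exact rel_two hLRL q e ζ0 hζ0 S (t m i) p0 v (α (t m i)) (γ (t m i)) hS
        (hP _ (hm i)).2.2 (hP _ hp0).2.2 (hαγ _ (hm i)).2
    refine ⟨z, ?_, ?_⟩
    · have h4 := cast_modEq q hz1
      push_cast at h4
      refine (pow_dvd_pow _ (Nat.sub_le e 3)).trans ?_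
      push_cast
      exact h4
    · have h4 := cast_modEq q hz2
      push_cast at h4
      have h4' : (q : ℤ_[q]) ^ (e - 3) ∣ ∑ i, (ζ0 (t n i) : ℤ_[q]) -
          (∑ i, (ζ0 (t n' i) : ℤ_[q]) + (ph q : ℤ_[q]) * (z : ℤ_[q])) :=
        (pow_dvd_pow _ (by omega)).trans h4
      have hs : ∑ i, θ * (ζ0 (L i) : ℤ_[q]) * (W n i - W n' i) =
          θ * ∑ i, W n i * (ζ0 (L i) : ℤ_[q]) - θ * ∑ i, W n' i * (ζ0 (L i) : ℤ_[q]) := by
        rw [Finset.mul_sum, Finset.mul_sum, ← Finset.sum_sub_distrib]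
        refine Finset.sum_congr rfl fun i _ => ?_
        ring
      have key : (q : ℤ_[q]) ^ (k0 + 1) * (z : ℤ_[q]) -
          ∑ i, θ * (ζ0 (L i) : ℤ_[q]) * (W n i - W n' i) =
          θ * ((q : ℤ_[q]) ^ k0 * (∑ i, ((ζ0 (t n i) : ℤ_[q]) - (ζ0 p0 : ℤ_[q]))) -
            ∑ i, W n i * (ζ0 (L i) : ℤ_[q])) -
          θ * ((q : ℤ_[q]) ^ k0 * (∑ i, ((ζ0 (t n' i) : ℤ_[q]) - (ζ0 p0 : ℤ_[q]))) -
            ∑ i, W n' i * (ζ0 (L i) : ℤ_[q])) -
          θ * (q : ℤ_[q]) ^ k0 * (∑ i, (ζ0 (t n i) : ℤ_[q]) -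
            (∑ i, (ζ0 (t n' i) : ℤ_[q]) + (ph q : ℤ_[q]) * (z : ℤ_[q]))) := by
        have h7 : (q : ℤ_[q]) ^ (k0 + 1) = (q : ℤ_[q]) ^ k0 * ((ph q : ℤ_[q]) * θ) := by
          rw [hθ, pow_succ]
        rw [hs, h7, Finset.sum_sub_distrib, Finset.sum_sub_distrib]
        ring
      rw [key]
      exact dvd_sub (dvd_sub (Dvd.dvd.mul_left (hrl n h1) _) (Dvd.dvd.mul_left (hrl n' h1') _))
        (Dvd.dvd.mul_left h4' _)

end Pool.Agent.H83.AG
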