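import Pool.Agent.H38.AG.Targets

/-!
# RO2: the number of pairs of sets of large primes
-/

set_option autoImplicit false

open Pool.Agent.H38.RB Pool.Agent.H38.PS Pool.Agent.H82.RD Pool.Agent.H38.AB Pool.Agent.H38.AG

namespace Pool.Agent.H83.AG

theorem card_le_fib {α β : Type*} [DecidableEq β] (F : Finset α) (g : α → β) (T : Finset β)
    (n : ℝ) (h1 : ∀ x ∈ F, g x ∈ T)
    (h2 : ∀ b ∈ T, ((F.filter (fun x => g x = b)).card : ℝ) ≤ n) :
    (F.card : ℝ) ≤ T.card * n := by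
  rw [Finset.card_eq_sum_card_fiberwise h1]
  push_cast
  calc ∑ b ∈ T, ((F.filter (fun x => g x = b)).card : ℝ) ≤ ∑ _b ∈ T, n := Finset.sum_le_sum h2
    _ = T.card * n := by rw [Finset.sum_const, nsmul_eq_mul]

/-- the elements of a set in increasing order -/
noncomputable def tup (k : ℕ) (B : Finset ℕ) : Fin k → ℕ := fun i =>
  if h : B.card = k then B.orderEmbOfFin h i else 0

theorem tup_eq {k : ℕ} {B : Finset ℕ} (h : B.card = k) (i : Fin k) :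
    tup k B i = B.orderEmbOfFin h i := by
  rw [tup, dif_pos h]

theorem tup_mem {k : ℕ} {B : Finset ℕ} (h : B.card = k) (i : Fin k) : tup k B i ∈ B := by
  rw [tup_eq h]
  exact Finset.orderEmbOfFin_mem B h i

theorem tup_injective {k : ℕ} {B : Finset ℕ} (h : B.card = k) : Function.Injective (tup k B) := by
  intro i j hij
  rw [tup_eq h, tup_eq h] at hij
  exact (B.orderEmbOfFin h).injective hij

theorem tup_image {k : ℕ} {B : Finset ℕ} (h : B.card = k) :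
    Finset.univ.image (tup k B) = B := by
  have h1 : tup k B = B.orderEmbOfFin h := funext fun i => tup_eq h i
  rw [h1]
  exact Finset.image_orderEmbOfFin_univ B h

theorem tup_inj_set {k : ℕ} {B B' : Finset ℕ} (h : B.card = k) (h' : B'.card = k)
    (e : tup k B = tup k B') : B = B' := by
  rw [← tup_image h, ← tup_image h', e]

theorem tup_prod {M : Type*} [CommMonoid M] {k : ℕ} {B : Finset ℕ} (h : B.card = k)
    (f : ℕ → M) : ∏ i, f (tup k B i) = ∏ p ∈ B, f p := by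
  conv_rhs => rw [← tup_image h]
  rw [Finset.prod_image fun i _ j _ hij => tup_injective h hij]

/-- the class of `m` in the group of units -/
noncomputable def uu (M m : ℕ) : (ZMod M)ˣ :=
  if h : m.Coprime M then ZMod.unitOfCoprime m h else 1

theorem uu_val {M m : ℕ} (h : m.Coprime M) : ((uu M m : (ZMod M)ˣ) : ZMod M) = (m : ZMod M) := by
  rw [uu, dif_pos h, ZMod.coe_unitOfCoprime]

theorem mem_Hb {M : ℕ} [NeZero M] {S : Finset ℕ} {V : ℕ} {z : (ZMod M)ˣ} :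
    z ∈ Hb M S V ↔ ∃ α γ : ℕ → ℕ, (∀ u, α u ≤ V ∧ γ u ≤ V) ∧
    (z : ZMod M) * ∏ u ∈ S, (u : ZMod M) ^ α u = ∏ u ∈ S, (u : ZMod M) ^ γ u := by
  classical
  rw [Hb, Finset.mem_filter]
  exact and_iff_right (Finset.mem_univ _)

/-- one pattern -/
theorem one_pat (hETS : T_ETS) (hBOX : T_BOX) {α : Type} (M V k k' : ℕ) [NeZero M]
    (S : Finset ℕ) (hS : ∀ u ∈ S, u.Coprime M) (B : Fin k → Finset ℕ) (B' : Fin k' → Finset ℕ)
    (f : Fin k → ℕ → (ZMod M)ˣ) (f' : Fin k' → ℕ → (ZMod M)ˣ) (E E' : ℝ)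
    (hE : EW B f (Hb M S (V + V)) ≤ (Hb M S (V + V)).card * E)
    (hE' : EW B' f' (Hb M S (V + V)) ≤ (Hb M S (V + V)).card * E') (hE0 : 0 ≤ E)
    (F : Finset α) (t : α → Fin k → ℕ) (t' : α → Fin k' → ℕ)
    (inj : ∀ a ∈ F, ∀ b ∈ F, t a = t b → t' a = t' b → a = b)
    (hm : ∀ a ∈ F, ∀ j, t a j ∈ B j) (hm' : ∀ a ∈ F, ∀ j, t' a j ∈ B' j)
    (hr : ∀ a ∈ F, ∃ z ∈ Hb M S V, ∏ j, f j (t a j) = z * ∏ j, f' j (t' a j)) :
    (F.card : ℝ) ≤ 2 ^ S.card * Real.sqrt (E * E') := by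
  classical
  obtain ⟨b1, -, b3, b4⟩ := hBOX M V S hS
  have hsub : Hb M S V ⊆ Hb M S (V + V) := by
    intro z hz
    have := b3 V z 1 hz b1
    rwa [mul_one] at this
  have h1 := hETS (ZMod M)ˣ (Fin k → ℕ) (Fin k' → ℕ) (Fintype.piFinset B)
    (Fintype.piFinset B') (fun t => ∏ j, f j (t j)) (fun t => ∏ j, f' j (t j)) (Hb M S V)
    (Hb M S (V + V)) hsub (fun g hg h hh => b3 V g h hg hh)
  have h2 : (F.card : ℝ) ≤ (((Fintype.piFinset B ×ˢ Fintype.piFinset B').filter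
      (fun t => ∃ z ∈ Hb M S V, ∏ j, f j (t.1 j) = z * ∏ j, f' j (t.2 j))).card : ℝ) := by
    have h3 : F.card ≤ ((Fintype.piFinset B ×ˢ Fintype.piFinset B').filter
      (fun t => ∃ z ∈ Hb M S V, ∏ j, f j (t.1 j) = z * ∏ j, f' j (t.2 j))).card := by
      refine Finset.card_le_card_of_injOn (fun a => (t a, t' a)) ?_ ?_
      · intro a ha
        have ha' : a ∈ F := ha
        rw [Finset.mem_coe, Finset.mem_filter, Finset.mem_product, Fintype.mem_piFinset,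
          Fintype.mem_piFinset]
        exact ⟨⟨hm a ha', hm' a ha'⟩, hr a ha'⟩
      · intro a ha b hb hab
        exact inj a ha b hb (congrArg Prod.fst hab) (congrArg Prod.snd hab)
    exact_mod_cast h3
  have hE2 : EW B f (Hb M S (V + V)) = (((((Fintype.piFinset B) ×ˢ (Fintype.piFinset B)) ×ˢ
      (Hb M S (V + V) ×ˢ Hb M S (V + V))).filter (fun t => (∏ j, f j (t.1.1 j)) * t.2.1 =
        (∏ j, f j (t.1.2 j)) * t.2.2)).card : ℝ) := rfl
  have hE2' : EW B' f' (Hb M S (V + V)) = (((((Fintype.piFinset B') ×ˢ (Fintype.piFinset B')) ×ˢ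
      (Hb M S (V + V) ×ˢ Hb M S (V + V))).filter (fun t => (∏ j, f' j (t.1.1 j)) * t.2.1 =
        (∏ j, f' j (t.1.2 j)) * t.2.2)).card : ℝ) := rfl
  rw [hE2] at hE
  rw [hE2'] at hE'
  have hH1 : (0 : ℝ) < ((Hb M S V).card : ℝ) := by
    have : 0 < (Hb M S V).card := Finset.card_pos.2 ⟨1, b1⟩
    exact_mod_cast this
  have hH2 : ((Hb M S (V + V)).card : ℝ) ≤ 2 ^ S.card * (Hb M S V).card := by
    rw [two_mul] at b4
    exact_mod_cast b4
  have hH2' : (0 : ℝ) ≤ ((Hb M S (V + V)).card : ℝ) := Nat.cast_nonneg _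
  have h5 : (F.card : ℝ) * (Hb M S V).card ≤
      (2 ^ S.card * Real.sqrt (E * E')) * (Hb M S V).card := by
    calc (F.card : ℝ) * (Hb M S V).card ≤ _ := mul_le_mul_of_nonneg_right h2 hH1.le
      _ ≤ _ := h1
      _ ≤ Real.sqrt ((Hb M S (V + V)).card * E) * Real.sqrt ((Hb M S (V + V)).card * E') :=
          mul_le_mul (Real.sqrt_le_sqrt hE) (Real.sqrt_le_sqrt hE') (Real.sqrt_nonneg _)
            (Real.sqrt_nonneg _)
      _ = (Hb M S (V + V)).card * Real.sqrt (E * E') := by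
          rw [Real.sqrt_mul hH2', Real.sqrt_mul hH2', Real.sqrt_mul hE0]
          have := Real.mul_self_sqrt hH2'
          calc _ = (Real.sqrt ((Hb M S (V + V)).card : ℝ) *
                Real.sqrt ((Hb M S (V + V)).card : ℝ)) * (Real.sqrt E * Real.sqrt E') := by ring
            _ = _ := by rw [this]
      _ ≤ (2 ^ S.card * (Hb M S V).card) * Real.sqrt (E * E') :=
          mul_le_mul_of_nonneg_right hH2 (Real.sqrt_nonneg _)
      _ = _ := by ring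
  exact le_of_mul_le_mul_right h5 hH1

/-- the relation in the group of units -/
theorem rel_units (M V : ℕ) [NeZero M] (S B C : Finset ℕ) (α γ β : ℕ → ℕ)
    (hB : ∀ p ∈ B, p.Coprime M) (hC : ∀ p ∈ C, p.Coprime M) (hV : ∀ p, α p ≤ V ∧ γ p ≤ V)
    (h : ((∏ p ∈ S, p ^ α p) * ∏ p ∈ B, p ^ β p) ^ 2 ≡
      ((∏ p ∈ S, p ^ γ p) * ∏ p ∈ C, p ^ β p) ^ 2 [MOD M]) :
    ∃ z ∈ Hb M S (2 * V), ∏ p ∈ B, uu M p ^ (2 * β p) = z * ∏ p ∈ C, uu M p ^ (2 * β p) := by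
  have h1 := (ZMod.natCast_eq_natCast_iff _ _ _).2 h
  push_cast at h1
  have e1 : ((∏ p ∈ B, uu M p ^ (2 * β p) : (ZMod M)ˣ) : ZMod M) =
      (∏ p ∈ B, (p : ZMod M) ^ β p) ^ 2 := by
    rw [Units.coe_prod, ← Finset.prod_pow]
    refine Finset.prod_congr rfl fun p hp => ?_
    rw [Units.val_pow_eq_pow_val, uu_val (hB p hp), ← pow_mul, mul_comm]
  have e2 : ((∏ p ∈ C, uu M p ^ (2 * β p) : (ZMod M)ˣ) : ZMod M) =
      (∏ p ∈ C, (p : ZMod M) ^ β p) ^ 2 := by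
    rw [Units.coe_prod, ← Finset.prod_pow]
    refine Finset.prod_congr rfl fun p hp => ?_
    rw [Units.val_pow_eq_pow_val, uu_val (hC p hp), ← pow_mul, mul_comm]
  refine ⟨(∏ p ∈ B, uu M p ^ (2 * β p)) * (∏ p ∈ C, uu M p ^ (2 * β p))⁻¹, ?_, ?_⟩
  · rw [mem_Hb]
    refine ⟨fun u => 2 * α u, fun u => 2 * γ u, ?_, ?_⟩
    · intro u
      have := hV u
      constructor
      · exact Nat.mul_le_mul_left 2 this.1
      · exact Nat.mul_le_mul_left 2 this.2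
    · have e3 : ∏ u ∈ S, (u : ZMod M) ^ (2 * α u) = (∏ u ∈ S, (u : ZMod M) ^ α u) ^ 2 := by
        rw [← Finset.prod_pow]
        exact Finset.prod_congr rfl fun p _ => by rw [← pow_mul, mul_comm]
      have e4 : ∏ u ∈ S, (u : ZMod M) ^ (2 * γ u) = (∏ u ∈ S, (u : ZMod M) ^ γ u) ^ 2 := by
        rw [← Finset.prod_pow]
        exact Finset.prod_congr rfl fun p _ => by rw [← pow_mul, mul_comm]
      rw [e3, e4, Units.val_mul, e1]
      have h2 : (∏ u ∈ S, (u : ZMod M) ^ α u) ^ 2 * (∏ p ∈ B, (p : ZMod M) ^ β p) ^ 2 =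
          (∏ u ∈ S, (u : ZMod M) ^ γ u) ^ 2 *
            ((∏ p ∈ C, uu M p ^ (2 * β p) : (ZMod M)ˣ) : ZMod M) := by
        rw [e2, ← mul_pow, ← mul_pow]
        exact h1
      calc (∏ p ∈ B, (p : ZMod M) ^ β p) ^ 2 *
            (((∏ p ∈ C, uu M p ^ (2 * β p))⁻¹ : (ZMod M)ˣ) : ZMod M) *
            (∏ u ∈ S, (u : ZMod M) ^ α u) ^ 2
          = ((∏ u ∈ S, (u : ZMod M) ^ α u) ^ 2 * (∏ p ∈ B, (p : ZMod M) ^ β p) ^ 2) *
            (((∏ p ∈ C, uu M p ^ (2 * β p))⁻¹ : (ZMod M)ˣ) : ZMod M) := by ring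
        _ = (∏ u ∈ S, (u : ZMod M) ^ γ u) ^ 2 *
            (((∏ p ∈ C, uu M p ^ (2 * β p) : (ZMod M)ˣ) : ZMod M) *
            (((∏ p ∈ C, uu M p ^ (2 * β p))⁻¹ : (ZMod M)ˣ) : ZMod M)) := by
              rw [h2, mul_assoc]
        _ = (∏ u ∈ S, (u : ZMod M) ^ γ u) ^ 2 := by
              rw [Units.mul_inv, mul_one]
  · rw [inv_mul_cancel_right]

theorem log_pd {B : Finset ℕ} (hB : ∀ p ∈ B, p.Prime) :
    Real.log (pd B : ℝ) = ∑ p ∈ B, Real.log (p : ℝ) := by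
  rw [pd]
  push_cast
  exact Real.log_prod fun p hp => Nat.cast_ne_zero.2 (hB p hp).ne_zero

theorem pd_pos' {B : Finset ℕ} (hB : ∀ p ∈ B, p.Prime) : (0 : ℝ) < (pd B : ℝ) := by
  have : 0 < pd B := Finset.prod_pos fun p hp => (hB p hp).pos
  exact_mod_cast this

theorem card_log {B : Finset ℕ} {u : ℝ} (hB : ∀ p ∈ B, p.Prime ∧ Real.exp u < (p : ℝ)) :
    (B.card : ℝ) * u ≤ Real.log (pd B : ℝ) := by
  rw [log_pd fun p hp => (hB p hp).1, ← nsmul_eq_mul]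
  refine Finset.card_nsmul_le_sum _ _ _ fun p hp => ?_
  rw [Real.le_log_iff_exp_le (Nat.cast_pos.2 (hB p hp).1.pos)]
  exact (hB p hp).2.le

/-- dyadic sizes -/
theorem two_pow_sizes {k : ℕ} {B : Finset ℕ} (h : B.card = k) (hB : ∀ p ∈ B, p.Prime)
    (s : Fin k → ℕ) (hs : ∀ j, Nat.log 2 (tup k B j) = s j) :
    (2 : ℝ) ^ (∑ j, s j) ≤ (pd B : ℝ) := by
  have h1 : 2 ^ (∑ j, s j) ≤ pd B := by
    rw [← Finset.prod_pow_eq_pow_sum, pd, ← tup_prod h fun p => p]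
    refine Finset.prod_le_prod' fun j _ => ?_
    rw [← hs j]
    exact Nat.pow_log_le_self 2 (hB _ (tup_mem h j)).ne_zero
  exact_mod_cast h1

/-- the number of pairs with a given pattern -/
theorem fib_pat (hETS : T_ETS) (hBOX : T_BOX) (X Zb Zc γ ρ₁ : ℝ) (q e Bd : ℕ) (S : Finset ℕ)
    (F : Finset (Finset ℕ × Finset ℕ)) (hq : q.Prime) [NeZero (q ^ e)] (hX : 2 ≤ X)
    (hS : ∀ p ∈ S, p.Coprime q)
    (hENP : ∀ (k : ℕ) (v s : Fin k → ℕ) (f : Fin k → ℕ → (ZMod (q ^ e))ˣ),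
      (∀ j, 1 ≤ v j ∧ v j ≤ 2 * Bd + 2 * Bd ∧ 1 / ρ₁ ≤ (s j : ℝ)) → (2 : ℝ) ^ (∑ j, s j) ≤ X →
      (∀ j, ∀ p : ℕ, p.Coprime q →
        ((f j p : (ZMod (q ^ e))ˣ) : ZMod (q ^ e)) = (p : ZMod (q ^ e)) ^ v j) →
      EW (fun j => Dy q (s j)) f (Hb (q ^ e) S (2 * Bd + 2 * Bd)) ≤
        (Hb (q ^ e) S (2 * Bd + 2 * Bd)).card *
          (2 ^ (∑ j, s j) * (((∑ j, s j : ℕ) : ℝ) + 1) ^ k * X ^ γ))
    (hZb : 1 ≤ Zb) (hZc : 1 ≤ Zc) (hZ : Zb * Zc ≤ X) (k k' : ℕ) (b s : Fin k → ℕ)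
    (b' s' : Fin k' → ℕ) (α γ' β : Finset ℕ × Finset ℕ → ℕ → ℕ)
    (hF : ∀ f ∈ F, f.1.card = k ∧ f.2.card = k' ∧
      (∀ j, β f (tup k f.1 j) = b j ∧ Nat.log 2 (tup k f.1 j) = s j) ∧
      (∀ j, β f (tup k' f.2 j) = b' j ∧ Nat.log 2 (tup k' f.2 j) = s' j) ∧
      (∀ p ∈ f.1 ∪ f.2, p.Prime ∧ p ≠ q ∧ 1 / ρ₁ ≤ (Nat.log 2 p : ℝ)) ∧
      (pd f.1 : ℝ) ≤ Zb ∧ (pd f.2 : ℝ) ≤ Zc ∧ (∀ p, α f p ≤ Bd ∧ γ' f p ≤ Bd) ∧
      (∀ p ∈ f.1 ∪ f.2, 1 ≤ β f p ∧ β f p ≤ Bd) ∧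
      ((∏ p ∈ S, p ^ α f p) * ∏ p ∈ f.1, p ^ β f p) ^ 2 ≡
        ((∏ p ∈ S, p ^ γ' f p) * ∏ p ∈ f.2, p ^ β f p) ^ 2 [MOD q ^ e]) :
    (F.card : ℝ) ≤ 2 ^ S.card *
      (Real.sqrt (Zb * Zc) * ((2 * Real.log X + 1) ^ (k + k') * X ^ γ)) := by
  have hlog0 : 0 ≤ Real.log X := Real.log_nonneg (by linarith)
  have hXp : 0 < X := by linarith
  rcases F.eq_empty_or_nonempty with hFe | ⟨f0, hf0⟩
  · rw [hFe, Finset.card_empty, Nat.cast_zero]
    positivity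
  obtain ⟨g1, g2, g3, g4, g5, g6, g7, -, g9, -⟩ := hF f0 hf0
  have hcop : ∀ p : ℕ, p.Prime → p ≠ q → p.Coprime q := fun p h1 h2 =>
    (Nat.coprime_primes h1 hq).2 h2
  have hSM : ∀ u ∈ S, u.Coprime (q ^ e) := fun u hu => (hS u hu).pow_right e
  -- the sizes
  have hs1 : (2 : ℝ) ^ (∑ j, s j) ≤ Zb := (two_pow_sizes g1
    (fun p hp => (g5 p (Finset.mem_union_left _ hp)).1) s fun j => (g3 j).2).trans g6
  have hs2 : (2 : ℝ) ^ (∑ j, s' j) ≤ Zc := (two_pow_sizes g2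
    (fun p hp => (g5 p (Finset.mem_union_right _ hp)).1) s' fun j => (g4 j).2).trans g7
  have hZbX : Zb ≤ X := by nlinarith
  have hZcX : Zc ≤ X := by nlinarith
  have hsum : ∀ n : ℕ, (2 : ℝ) ^ n ≤ X → (n : ℝ) + 1 ≤ 2 * Real.log X + 1 := by
    intro n hn
    have h1 : (n : ℝ) * Real.log 2 ≤ Real.log X := by
      rw [← Real.log_pow]
      exact Real.log_le_log (by positivity) hn
    have h2 : (1 / 2 : ℝ) ≤ Real.log 2 := by
      have := Real.log_two_gt_d9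
      linarith
    have h3 : (n : ℝ) * (1 / 2) ≤ n * Real.log 2 :=
      mul_le_mul_of_nonneg_left h2 (Nat.cast_nonneg n)
    linarith
  have hE : EW (fun j => Dy q (s j)) (fun j p => uu (q ^ e) p ^ (2 * b j))
      (Hb (q ^ e) S (2 * Bd + 2 * Bd)) ≤ (Hb (q ^ e) S (2 * Bd + 2 * Bd)).card *
      (Zb * (2 * Real.log X + 1) ^ k * X ^ γ) := by
    refine (hENP k (fun j => 2 * b j) s (fun j p => uu (q ^ e) p ^ (2 * b j)) ?_
      (hs1.trans hZbX) ?_).trans ?_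
    · intro j
      have h1 := g9 _ (Finset.mem_union_left _ (tup_mem g1 j))
      rw [(g3 j).1] at h1
      refine ⟨by omega, by omega, ?_⟩
      have h2 := (g5 _ (Finset.mem_union_left _ (tup_mem g1 j))).2.2
      rw [(g3 j).2] at h2
      exact h2
    · intro j p hp
      rw [Units.val_pow_eq_pow_val, uu_val (hp.pow_right e)]
    · refine mul_le_mul_of_nonneg_left ?_ (Nat.cast_nonneg _)
      refine mul_le_mul_of_nonneg_right ?_ (Real.rpow_nonneg hXp.le _)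
      refine mul_le_mul hs1 ?_ (by positivity) (by linarith)
      exact pow_le_pow_left₀ (by positivity) (hsum _ (hs1.trans hZbX)) _
  have hE' : EW (fun j => Dy q (s' j)) (fun j p => uu (q ^ e) p ^ (2 * b' j))
      (Hb (q ^ e) S (2 * Bd + 2 * Bd)) ≤ (Hb (q ^ e) S (2 * Bd + 2 * Bd)).card *
      (Zc * (2 * Real.log X + 1) ^ k' * X ^ γ) := by
    refine (hENP k' (fun j => 2 * b' j) s' (fun j p => uu (q ^ e) p ^ (2 * b' j)) ?_
      (hs2.trans hZcX) ?_).trans ?_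
    · intro j
      have h1 := g9 _ (Finset.mem_union_right _ (tup_mem g2 j))
      rw [(g4 j).1] at h1
      refine ⟨by omega, by omega, ?_⟩
      have h2 := (g5 _ (Finset.mem_union_right _ (tup_mem g2 j))).2.2
      rw [(g4 j).2] at h2
      exact h2
    · intro j p hp
      rw [Units.val_pow_eq_pow_val, uu_val (hp.pow_right e)]
    · refine mul_le_mul_of_nonneg_left ?_ (Nat.cast_nonneg _)
      refine mul_le_mul_of_nonneg_right ?_ (Real.rpow_nonneg hXp.le _)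
      refine mul_le_mul hs2 ?_ (by positivity) (by linarith)
      exact pow_le_pow_left₀ (by positivity) (hsum _ (hs2.trans hZcX)) _
  have hmem : ∀ B : Finset ℕ, ∀ m : ℕ, ∀ σ : Fin m → ℕ, B.card = m →
      (∀ p ∈ B, p.Prime ∧ p ≠ q) → (∀ j, Nat.log 2 (tup m B j) = σ j) →
      ∀ j, tup m B j ∈ Dy q (σ j) := by
    intro B m σ hc hp hσ j
    have h1 := tup_mem hc j
    have h2 := hp _ h1
    rw [Dy, Finset.mem_filter, Finset.mem_Ico, ← hσ j]
    exact ⟨⟨Nat.pow_log_le_self 2 h2.1.ne_zero, Nat.lt_pow_succ_log_self (by norm_num) _⟩,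
      h2.1, hcop _ h2.1 h2.2⟩
  have key := one_pat hETS hBOX (q ^ e) (2 * Bd) k k' S hSM (fun j => Dy q (s j))
    (fun j => Dy q (s' j)) (fun j p => uu (q ^ e) p ^ (2 * b j))
    (fun j p => uu (q ^ e) p ^ (2 * b' j)) _ _ hE hE' (by positivity) F
    (fun f => tup k f.1) (fun f => tup k' f.2) ?_ ?_ ?_ ?_
  · refine key.trans (mul_le_mul_of_nonneg_left ?_ (by positivity))
    have hXγ : 0 ≤ X ^ γ := Real.rpow_nonneg hXp.le _
    have e1 : Zb * (2 * Real.log X + 1) ^ k * X ^ γ * (Zc * (2 * Real.log X + 1) ^ k' * X ^ γ) =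
        (Zb * Zc) * (2 * Real.log X + 1) ^ (k + k') * (X ^ γ) ^ 2 := by ring
    rw [e1, Real.sqrt_mul (by positivity), Real.sqrt_mul (by positivity), Real.sqrt_sq hXγ,
      mul_assoc]
    refine mul_le_mul_of_nonneg_left ?_ (Real.sqrt_nonneg _)
    refine mul_le_mul_of_nonneg_right ?_ hXγ
    have h1 : (1 : ℝ) ≤ (2 * Real.log X + 1) ^ (k + k') := one_le_pow₀ (by linarith)
    rw [Real.sqrt_le_left (by positivity)]
    nlinarith
  · intro f hf g hg h1 h2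
    exact Prod.ext (tup_inj_set (hF f hf).1 (hF g hg).1 h1)
      (tup_inj_set (hF f hf).2.1 (hF g hg).2.1 h2)
  · intro f hf
    obtain ⟨c1, c2, c3, c4, c5, -⟩ := hF f hf
    exact hmem f.1 k s c1 (fun p hp => ⟨(c5 p (Finset.mem_union_left _ hp)).1,
      (c5 p (Finset.mem_union_left _ hp)).2.1⟩) fun j => (c3 j).2
  · intro f hf
    obtain ⟨c1, c2, c3, c4, c5, -⟩ := hF f hf
    exact hmem f.2 k' s' c2 (fun p hp => ⟨(c5 p (Finset.mem_union_right _ hp)).1,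
      (c5 p (Finset.mem_union_right _ hp)).2.1⟩) fun j => (c4 j).2
  · intro f hf
    obtain ⟨c1, c2, c3, c4, c5, -, -, c8, c9, c10⟩ := hF f hf
    obtain ⟨z, hz1, hz2⟩ := rel_units (q ^ e) Bd S f.1 f.2 (α f) (γ' f) (β f)
      (fun p hp => (hcop p (c5 p (Finset.mem_union_left _ hp)).1
        (c5 p (Finset.mem_union_left _ hp)).2.1).pow_right e)
      (fun p hp => (hcop p (c5 p (Finset.mem_union_right _ hp)).1
        (c5 p (Finset.mem_union_right _ hp)).2.1).pow_right e) c8 c10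
    refine ⟨z, hz1, ?_⟩
    rw [← tup_prod c1 fun p => uu (q ^ e) p ^ (2 * β f p),
      ← tup_prod c2 fun p => uu (q ^ e) p ^ (2 * β f p)] at hz2
    simp only [(c3 _).1, (c4 _).1] at hz2
    exact hz2

/-- the number of pairs with given cardinalities -/
theorem fib_kk (hETS : T_ETS) (hBOX : T_BOX) (X Zb Zc γ ρ₁ : ℝ) (q e Bd : ℕ) (S : Finset ℕ)
    (F : Finset (Finset ℕ × Finset ℕ)) (hq : q.Prime) [NeZero (q ^ e)] (hX : 3 ≤ X)
    (hS : ∀ p ∈ S, p.Coprime q)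
    (hENP : ∀ (k : ℕ) (v s : Fin k → ℕ) (f : Fin k → ℕ → (ZMod (q ^ e))ˣ),
      (∀ j, 1 ≤ v j ∧ v j ≤ 2 * Bd + 2 * Bd ∧ 1 / ρ₁ ≤ (s j : ℝ)) → (2 : ℝ) ^ (∑ j, s j) ≤ X →
      (∀ j, ∀ p : ℕ, p.Coprime q →
        ((f j p : (ZMod (q ^ e))ˣ) : ZMod (q ^ e)) = (p : ZMod (q ^ e)) ^ v j) →
      EW (fun j => Dy q (s j)) f (Hb (q ^ e) S (2 * Bd + 2 * Bd)) ≤
        (Hb (q ^ e) S (2 * Bd + 2 * Bd)).card *
          (2 ^ (∑ j, s j) * (((∑ j, s j : ℕ) : ℝ) + 1) ^ k * X ^ γ))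
    (hZb : 1 ≤ Zb) (hZc : 1 ≤ Zc) (hZ : Zb * Zc ≤ X) (k k' : ℕ)
    (α γ' β : Finset ℕ × Finset ℕ → ℕ → ℕ)
    (hF : ∀ f ∈ F, f.1.card = k ∧ f.2.card = k' ∧
      (∀ p ∈ f.1 ∪ f.2, p.Prime ∧ p ≠ q ∧ 1 / ρ₁ ≤ (Nat.log 2 p : ℝ)) ∧
      (pd f.1 : ℝ) ≤ Zb ∧ (pd f.2 : ℝ) ≤ Zc ∧ (∀ p, α f p ≤ Bd ∧ γ' f p ≤ Bd) ∧
      (∀ p ∈ f.1 ∪ f.2, 1 ≤ β f p ∧ β f p ≤ Bd) ∧
      ((∏ p ∈ S, p ^ α f p) * ∏ p ∈ f.1, p ^ β f p) ^ 2 ≡
        ((∏ p ∈ S, p ^ γ' f p) * ∏ p ∈ f.2, p ^ β f p) ^ 2 [MOD q ^ e]) :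
    (F.card : ℝ) ≤ ((Bd : ℝ) * (2 * Real.log X + 1)) ^ (k + k') * (2 ^ S.card *
      (Real.sqrt (Zb * Zc) * ((2 * Real.log X + 1) ^ (k + k') * X ^ γ))) := by
  classical
  have hlog0 : 1 ≤ Real.log X := by
    rw [Real.le_log_iff_exp_le (by linarith)]
    have := Real.exp_one_lt_d9
    linarith
  obtain ⟨N, hN⟩ : ∃ N : ℕ, N = ⌊2 * Real.log X⌋₊ + 1 := ⟨_, rfl⟩
  have hNr : (N : ℝ) ≤ 2 * Real.log X + 1 := by
    rw [hN]
    push_cast
    linarith [Nat.floor_le (show (0 : ℝ) ≤ 2 * Real.log X by linarith)]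
  obtain ⟨T, hT⟩ : ∃ T : Finset (((Fin k → ℕ) × (Fin k → ℕ)) × ((Fin k' → ℕ) × (Fin k' → ℕ))),
      T = ((Fintype.piFinset fun _ => Finset.Icc 1 Bd) ×ˢ
        (Fintype.piFinset fun _ => Finset.range N)) ×ˢ
        ((Fintype.piFinset fun _ => Finset.Icc 1 Bd) ×ˢ
        (Fintype.piFinset fun _ => Finset.range N)) := ⟨_, rfl⟩
  have hTc : (T.card : ℝ) ≤ ((Bd : ℝ) * (2 * Real.log X + 1)) ^ (k + k') := by
    rw [hT, Finset.card_product, Finset.card_product, Finset.card_product,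
      Fintype.card_piFinset_const, Fintype.card_piFinset_const, Fintype.card_piFinset_const,
      Fintype.card_piFinset_const, Nat.card_Icc, Finset.card_range, Nat.add_sub_cancel]
    push_cast
    have e1 : (Bd : ℝ) ^ k * (N : ℝ) ^ k * ((Bd : ℝ) ^ k' * (N : ℝ) ^ k') =
        ((Bd : ℝ) * N) ^ (k + k') := by ring
    rw [e1]
    refine pow_le_pow_left₀ (by positivity) ?_ _
    exact mul_le_mul_of_nonneg_left hNr (Nat.cast_nonneg _)
  have hsz : ∀ B : Finset ℕ, ∀ Z : ℝ, (∀ p ∈ B, p.Prime) → (pd B : ℝ) ≤ Z → Z ≤ X →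
      ∀ p ∈ B, Nat.log 2 p ∈ Finset.range N := by
    intro B Z hB h1 h2 p hp
    rw [Finset.mem_range, hN, Nat.lt_add_one_iff]
    refine Nat.le_floor ?_
    have h3 : p ≤ pd B := by
      refine Nat.le_of_dvd (Finset.prod_pos fun p hp => (hB p hp).pos) ?_
      exact Finset.dvd_prod_of_mem (fun p => p) hp
    have h4 : (2 : ℝ) ^ (Nat.log 2 p) ≤ X := by
      have h5 : 2 ^ Nat.log 2 p ≤ p := Nat.pow_log_le_self 2 (hB p hp).ne_zero
      have h6 : ((2 ^ Nat.log 2 p : ℕ) : ℝ) ≤ (pd B : ℝ) := by exact_mod_cast h5.trans h3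
      push_cast at h6
      exact h6.trans (h1.trans h2)
    have h7 : (Nat.log 2 p : ℝ) * Real.log 2 ≤ Real.log X := by
      rw [← Real.log_pow]
      exact Real.log_le_log (by positivity) h4
    have h8 : (1 / 2 : ℝ) ≤ Real.log 2 := by
      have := Real.log_two_gt_d9
      linarith
    have h9 : (Nat.log 2 p : ℝ) * (1 / 2) ≤ Nat.log 2 p * Real.log 2 :=
      mul_le_mul_of_nonneg_left h8 (Nat.cast_nonneg _)
    linarith
  have hZbX : Zb ≤ X := by nlinarith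
  have hZcX : Zc ≤ X := by nlinarith
  have hXp : 0 < X := by linarith
  have key := card_le_fib F (fun f => (((fun j => β f (tup k f.1 j)),
      fun j => Nat.log 2 (tup k f.1 j)), ((fun j => β f (tup k' f.2 j)),
      fun j => Nat.log 2 (tup k' f.2 j)))) T (2 ^ S.card *
      (Real.sqrt (Zb * Zc) * ((2 * Real.log X + 1) ^ (k + k') * X ^ γ))) ?_ ?_
  · refine key.trans (mul_le_mul_of_nonneg_right hTc ?_)
    have := Real.rpow_nonneg hXp.le γ
    positivity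
  · intro f hf
    obtain ⟨c1, c2, c3, c4, c5, c6, c7, c8⟩ := hF f hf
    rw [hT, Finset.mem_product, Finset.mem_product, Finset.mem_product, Fintype.mem_piFinset,
      Fintype.mem_piFinset, Fintype.mem_piFinset, Fintype.mem_piFinset]
    refine ⟨⟨fun j => ?_, fun j => ?_⟩, ⟨fun j => ?_, fun j => ?_⟩⟩
    · exact Finset.mem_Icc.2 (c7 _ (Finset.mem_union_left _ (tup_mem c1 j)))
    · exact hsz f.1 Zb (fun p hp => (c3 p (Finset.mem_union_left _ hp)).1) c4 hZbX _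
        (tup_mem c1 j)
    · exact Finset.mem_Icc.2 (c7 _ (Finset.mem_union_right _ (tup_mem c2 j)))
    · exact hsz f.2 Zc (fun p hp => (c3 p (Finset.mem_union_right _ hp)).1) c5 hZcX _
        (tup_mem c2 j)
  · rintro ⟨⟨b, s⟩, ⟨b', s'⟩⟩ _
    refine fib_pat hETS hBOX X Zb Zc γ ρ₁ q e Bd S _ hq (by linarith) hS hENP hZb hZc hZ k k'
      b s b' s' α γ' β ?_
    intro f hf
    rw [Finset.mem_filter] at hf
    obtain ⟨hf1, hf2⟩ := hf
    obtain ⟨c1, c2, c3, c4, c5, c6, c7, c8⟩ := hF f hf1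
    rw [Prod.mk.injEq, Prod.mk.injEq, Prod.mk.injEq] at hf2
    obtain ⟨⟨d1, d2⟩, ⟨d3, d4⟩⟩ := hf2
    exact ⟨c1, c2, fun j => ⟨congrFun d1 j, congrFun d2 j⟩,
      fun j => ⟨congrFun d3 j, congrFun d4 j⟩, c3, c4, c5, c6, c7, c8⟩

/-- the number of patterns -/
theorem num_pat (y ℓ u Bd : ℝ) (n : ℕ) (hy : 3 ≤ y) (hℓ : 1000 * Real.log y ≤ ℓ)
    (hll : 1 ≤ Real.log y) (hBd0 : 0 ≤ Bd) (hBd : Bd ≤ Real.exp (2 * ℓ))
    (hn : (n : ℝ) * (100 * ℓ) ≤ y) (hu : u ≤ 2 * y + 1) (hu0 : 0 ≤ u) :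
    (Bd * u) ^ n * u ^ n ≤ Real.exp (21 / 1000 * y) := by
  have hlog3 : Real.log 3 ≤ 2 := by
    have h1 := Real.log_le_sub_one_of_pos (show (0 : ℝ) < 3 by norm_num)
    linarith
  have hℓ0 : 0 < ℓ := by linarith
  have h3y : u ≤ Real.exp (3 * Real.log y) := by
    have h1 : Real.log (3 * y) = Real.log 3 + Real.log y :=
      Real.log_mul (by norm_num) (by linarith)
    have h2 : 3 * y = Real.exp (Real.log (3 * y)) := (Real.exp_log (by linarith)).symm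
    calc u ≤ 3 * y := by linarith
      _ = Real.exp (Real.log (3 * y)) := h2
      _ ≤ Real.exp (3 * Real.log y) := Real.exp_le_exp.2 (by rw [h1]; linarith)
  have h1 : Bd * u * u ≤ Real.exp (2 * ℓ + 6 * Real.log y) := by
    calc Bd * u * u ≤ Real.exp (2 * ℓ) * Real.exp (3 * Real.log y) *
          Real.exp (3 * Real.log y) := by
          have h4 := Real.exp_nonneg (3 * Real.log y)
          refine mul_le_mul (mul_le_mul hBd h3y hu0 (Real.exp_nonneg _)) h3y hu0 ?_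
          positivity
      _ = _ := by
          rw [← Real.exp_add, ← Real.exp_add]
          congr 1
          ring
  have h2 : (Bd * u) ^ n * u ^ n = (Bd * u * u) ^ n := by ring
  rw [h2]
  calc (Bd * u * u) ^ n ≤ (Real.exp (2 * ℓ + 6 * Real.log y)) ^ n :=
        pow_le_pow_left₀ (by positivity) h1 n
    _ = Real.exp (n * (2 * ℓ + 6 * Real.log y)) := by rw [← Real.exp_nat_mul]
    _ ≤ _ := by
        refine Real.exp_le_exp.2 ?_
        have h3 : (n : ℝ) * (2 * ℓ + 6 * Real.log y) ≤ n * (21 / 10 * ℓ) :=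
          mul_le_mul_of_nonneg_left (by linarith) (Nat.cast_nonneg n)
        nlinarith

theorem pf_RO2 (hENP : T_ENP) (hETS : T_ETS) (hBOX : T_BOX) : T_RO2 := by
  classical
  obtain ⟨K₁, ρ₁, X₁, hK₁, hρ₁, hX₁, hE⟩ := hENP (1 / 100) (by norm_num)
  refine ⟨max (2 * K₁) (1 / ρ₁ + 1000), min ρ₁ (1 / 1000), max X₁ (Real.exp (2 * 10 ^ 9)),
    le_max_of_le_left (by linarith), lt_min hρ₁ (by norm_num), le_max_of_le_left hX₁, ?_⟩
  intro X ℓ Zb Zc q e Bd S F hX hKℓ hℓX hq hqX hBd he hS hSc hZb hZc hZ hF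
  have hρi : 0 < 1 / ρ₁ := by positivity
  have hX1 : X₁ ≤ X := (le_max_left _ _).trans hX
  have hX2 : Real.exp (2 * 10 ^ 9) ≤ X := (le_max_right _ _).trans hX
  have hXp : 0 < X := (Real.exp_pos _).trans_le hX2
  have hy : 2 * 10 ^ 9 ≤ Real.log X := (Real.le_log_iff_exp_le hXp).2 hX2
  obtain ⟨y, hyd⟩ : ∃ y : ℝ, y = Real.log X := ⟨_, rfl⟩
  have hXe : X = Real.exp y := by rw [hyd, Real.exp_log hXp]
  rw [← hyd] at hy
  have hX3 : 3 ≤ X := by
    rw [hXe]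
    linarith [Real.add_one_le_exp y]
  have hll : 1 ≤ Real.log y := by
    rw [Real.le_log_iff_exp_le (by linarith)]
    have := Real.exp_one_lt_d9
    linarith
  rw [← hyd] at hKℓ hℓX hSc
  have hK1 : 2 * K₁ * Real.log y ≤ ℓ :=
    (mul_le_mul_of_nonneg_right (le_max_left _ _) (by linarith)).trans hKℓ
  have hK2 : (1 / ρ₁ + 1000) * Real.log y ≤ ℓ :=
    (mul_le_mul_of_nonneg_right (le_max_right _ _) (by linarith)).trans hKℓ
  have hK3 : 1000 * Real.log y ≤ ℓ := by nlinarith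
  have hK4 : 1 / ρ₁ + 1000 ≤ ℓ := by nlinarith
  have hℓ0 : 0 < ℓ := by linarith
  have : NeZero (q ^ e) := ⟨pow_ne_zero _ hq.ne_zero⟩
  have hScop : ∀ p ∈ S, p.Coprime q := fun p hp =>
    (Nat.coprime_primes (hS p hp).1 hq).2 (hS p hp).2
  have hSc1 : (S.card : ℝ) * Real.log y ≤ ρ₁ * y :=
    hSc.trans (mul_le_mul_of_nonneg_right (min_le_left _ _) (by linarith))
  have hSc2 : (S.card : ℝ) ≤ 1 / 1000 * y := by
    have h1 : (S.card : ℝ) * Real.log y ≤ 1 / 1000 * y :=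
      hSc.trans (mul_le_mul_of_nonneg_right (min_le_right _ _) (by linarith))
    have h2 : (S.card : ℝ) * 1 ≤ S.card * Real.log y :=
      mul_le_mul_of_nonneg_left hll (Nat.cast_nonneg _)
    linarith
  have hKe : Real.log X ^ K₁ ≤ (e : ℝ) := by
    rw [← hyd, Real.rpow_def_of_pos (by linarith)]
    refine (Real.exp_le_exp.2 ?_).trans he
    linarith
  have hV : ((2 * Bd + 2 * Bd : ℕ) : ℝ) ≤ X ^ 64 := by
    push_cast
    have h1 : (Bd : ℝ) ≤ X ^ 60 := by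
      refine hBd.trans ?_
      rw [hXe, ← Real.exp_nat_mul]
      refine Real.exp_le_exp.2 ?_
      push_cast
      linarith
    have h2 : (4 : ℝ) ≤ X ^ 4 := by nlinarith [sq_nonneg (X ^ 2 - 9), sq_nonneg (X - 3)]
    have h3 : (0 : ℝ) ≤ X ^ 60 := by positivity
    calc (2 : ℝ) * Bd + 2 * Bd = 4 * Bd := by ring
      _ ≤ X ^ 4 * X ^ 60 := mul_le_mul h2 h1 (Nat.cast_nonneg _) (by positivity)
      _ = X ^ 64 := by ring
  have hENP' : ∀ (k : ℕ) (v s : Fin k → ℕ) (f : Fin k → ℕ → (ZMod (q ^ e))ˣ),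
      (∀ j, 1 ≤ v j ∧ v j ≤ 2 * Bd + 2 * Bd ∧ 1 / ρ₁ ≤ (s j : ℝ)) → (2 : ℝ) ^ (∑ j, s j) ≤ X →
      (∀ j, ∀ p : ℕ, p.Coprime q →
        ((f j p : (ZMod (q ^ e))ˣ) : ZMod (q ^ e)) = (p : ZMod (q ^ e)) ^ v j) →
      EW (fun j => Dy q (s j)) f (Hb (q ^ e) S (2 * Bd + 2 * Bd)) ≤
        (Hb (q ^ e) S (2 * Bd + 2 * Bd)).card *
          (2 ^ (∑ j, s j) * (((∑ j, s j : ℕ) : ℝ) + 1) ^ k * X ^ (1 / 100 : ℝ)) := by
    intro k v s f h1 h2 h3
    refine hE X q e (2 * Bd + 2 * Bd) k v s S f hX1 hq hqX hKe hScop ?_ h1 h2 hV h3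
    rw [← hyd]
    exact hSc1
  -- the data of an element
  have hch : ∀ f : Finset ℕ × Finset ℕ, ∃ α γ β : ℕ → ℕ, f ∈ F →
      (∀ p, α p ≤ Bd ∧ γ p ≤ Bd) ∧ (∀ p ∈ f.1 ∪ f.2, 1 ≤ β p ∧ β p ≤ Bd) ∧
      ((∏ p ∈ S, p ^ α p) * ∏ p ∈ f.1, p ^ β p) ^ 2 ≡
        ((∏ p ∈ S, p ^ γ p) * ∏ p ∈ f.2, p ^ β p) ^ 2 [MOD q ^ e] := by
    intro f
    by_cases hf : f ∈ F
    · obtain ⟨-, -, -, -, -, α, γ, β, h⟩ := hF f hf
      exact ⟨α, γ, β, fun _ => h⟩
    · exact ⟨0, 0, 0, fun h => absurd h hf⟩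
  choose α γ β hch using hch
  have hlogp : ∀ p : ℕ, Real.exp (100 * ℓ) < (p : ℝ) → 1 / ρ₁ ≤ (Nat.log 2 p : ℝ) := by
    intro p hp
    have hp0 : (0 : ℝ) < p := (Real.exp_pos _).trans hp
    have h1 : p < 2 ^ (Nat.log 2 p + 1) := Nat.lt_pow_succ_log_self (by norm_num) p
    have h2 : (p : ℝ) < 2 ^ (Nat.log 2 p + 1) := by exact_mod_cast h1
    have h3 : 100 * ℓ < ((Nat.log 2 p : ℝ) + 1) * Real.log 2 := by
      have h4 : Real.log ((2 : ℝ) ^ (Nat.log 2 p + 1)) = ((Nat.log 2 p : ℝ) + 1) * Real.log 2 := by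
        rw [Real.log_pow]
        push_cast
        ring
      rw [← h4, Real.lt_log_iff_exp_lt (by positivity)]
      exact hp.trans h2
    have h5 : Real.log 2 ≤ 1 := by
      have := Real.log_two_lt_d9
      linarith
    have h6 : ((Nat.log 2 p : ℝ) + 1) * Real.log 2 ≤ (Nat.log 2 p : ℝ) + 1 :=
      mul_le_of_le_one_right (by positivity) h5
    linarith
  have hsize : ∀ f ∈ F, ((f.1.card + f.2.card : ℕ) : ℝ) * (100 * ℓ) ≤ y := by
    intro f hf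
    obtain ⟨h1, h2, h3, h4, h5, -⟩ := hF f hf
    have g1 := card_log (B := f.1) (u := 100 * ℓ) fun p hp =>
      ⟨(h3 p (Finset.mem_union_left _ hp)).1, (h3 p (Finset.mem_union_left _ hp)).2.2⟩
    have g2 := card_log (B := f.2) (u := 100 * ℓ) fun p hp =>
      ⟨(h3 p (Finset.mem_union_right _ hp)).1, (h3 p (Finset.mem_union_right _ hp)).2.2⟩
    have p1 := pd_pos' (B := f.1) fun p hp => (h3 p (Finset.mem_union_left _ hp)).1
    have p2 := pd_pos' (B := f.2) fun p hp => (h3 p (Finset.mem_union_right _ hp)).1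
    have g3 : Real.log (pd f.1 : ℝ) + Real.log (pd f.2 : ℝ) ≤ y := by
      rw [← Real.log_mul p1.ne' p2.ne', hyd]
      refine Real.log_le_log (mul_pos p1 p2) ?_
      exact (mul_le_mul h4 h5 p2.le (by linarith)).trans hZ
    push_cast
    linarith
  obtain ⟨N, hN⟩ : ∃ N : ℕ, N = ⌊y⌋₊ + 1 := ⟨_, rfl⟩
  have hNr : (N : ℝ) ≤ 2 * y := by
    rw [hN]
    push_cast
    linarith [Nat.floor_le (show (0 : ℝ) ≤ y by linarith)]
  obtain ⟨T, hT⟩ : ∃ T : Finset (ℕ × ℕ), T = (Finset.range N ×ˢ Finset.range N).filter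
    (fun k => ((k.1 + k.2 : ℕ) : ℝ) * (100 * ℓ) ≤ y) := ⟨_, rfl⟩
  have hTc : (T.card : ℝ) ≤ Real.exp (1 / 400 * y) := by
    have h1 : T.card ≤ N * N := by
      rw [hT]
      refine (Finset.card_filter_le _ _).trans ?_
      rw [Finset.card_product, Finset.card_range]
    have h2 : (T.card : ℝ) ≤ N * N := by exact_mod_cast h1
    have h3 : (N : ℝ) * N ≤ 4 * y ^ 2 := by
      have : (0 : ℝ) ≤ N := Nat.cast_nonneg _
      nlinarith
    have h4 := Real.pow_div_factorial_le_exp (1 / 400 * y) (by linarith) 3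
    have h5 : 4 * y ^ 2 ≤ (1 / 400 * y) ^ 3 / (Nat.factorial 3 : ℝ) := by
      have h6 : (Nat.factorial 3 : ℝ) = 6 := by norm_num [Nat.factorial]
      rw [h6]
      have h7 : 0 ≤ y ^ 2 := sq_nonneg y
      nlinarith
    linarith
  have key := card_le_fib F (fun f => (f.1.card, f.2.card)) T
    (Real.exp (21 / 1000 * y) * (Real.exp (1 / 1000 * y) *
      (Real.sqrt (Zb * Zc) * Real.exp (1 / 100 * y)))) ?_ ?_
  · have h1 : X ^ (1 / 20 : ℝ) = Real.exp (1 / 20 * y) := by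
      rw [Real.rpow_def_of_pos hXp, ← hyd, mul_comm]
    have h2 : (Zb * Zc) ^ (1 / 2 : ℝ) = Real.sqrt (Zb * Zc) := by rw [Real.sqrt_eq_rpow]
    rw [h1, h2]
    refine key.trans ?_
    calc (T.card : ℝ) * (Real.exp (21 / 1000 * y) * (Real.exp (1 / 1000 * y) *
          (Real.sqrt (Zb * Zc) * Real.exp (1 / 100 * y)))) ≤
          Real.exp (1 / 400 * y) * (Real.exp (21 / 1000 * y) * (Real.exp (1 / 1000 * y) *
          (Real.sqrt (Zb * Zc) * Real.exp (1 / 100 * y)))) :=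
          mul_le_mul_of_nonneg_right hTc (by positivity)
      _ = Real.exp (1 / 400 * y + 21 / 1000 * y + 1 / 1000 * y + 1 / 100 * y) *
          Real.sqrt (Zb * Zc) := by
          rw [Real.exp_add, Real.exp_add, Real.exp_add]
          ring
      _ ≤ Real.exp (1 / 20 * y) * Real.sqrt (Zb * Zc) :=
          mul_le_mul_of_nonneg_right (Real.exp_le_exp.2 (by linarith)) (Real.sqrt_nonneg _)
  · intro f hf
    have h1 := hsize f hf
    rw [hT, Finset.mem_filter, Finset.mem_product, Finset.mem_range, Finset.mem_range]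
    have h2 : ((f.1.card : ℝ) + f.2.card) ≤ y := by
      push_cast at h1
      have : (0 : ℝ) ≤ (f.1.card : ℝ) + f.2.card :=
        add_nonneg (Nat.cast_nonneg _) (Nat.cast_nonneg _)
      nlinarith
    refine ⟨⟨?_, ?_⟩, h1⟩
    · rw [hN, Nat.lt_add_one_iff]
      refine Nat.le_floor ?_
      have : (0 : ℝ) ≤ (f.2.card : ℝ) := Nat.cast_nonneg _
      linarith
    · rw [hN, Nat.lt_add_one_iff]
      refine Nat.le_floor ?_
      have : (0 : ℝ) ≤ (f.1.card : ℝ) := Nat.cast_nonneg _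
      linarith
  · rintro ⟨k, k'⟩ hk
    rw [hT, Finset.mem_filter] at hk
    have hk2 := hk.2
    simp only [] at hk2
    have h1 := fib_kk hETS hBOX X Zb Zc (1 / 100) ρ₁ q e Bd S
      (F.filter (fun f => (f.1.card, f.2.card) = (k, k'))) hq hX3 hScop hENP' hZb hZc hZ k k'
      α γ β ?_
    · refine h1.trans ?_
      rw [← hyd]
      have h2 := num_pat y ℓ (2 * y + 1) Bd (k + k') (by linarith) hK3 hll (Nat.cast_nonneg _)
        hBd hk2 le_rfl (by linarith)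
      have h3 : (2 : ℝ) ^ S.card ≤ Real.exp (1 / 1000 * y) := by
        calc (2 : ℝ) ^ S.card ≤ (Real.exp 1) ^ S.card := by
              refine pow_le_pow_left₀ (by norm_num) ?_ _
              linarith [Real.add_one_le_exp 1]
          _ = Real.exp S.card := by rw [← Real.exp_nat_mul, mul_one]
          _ ≤ _ := Real.exp_le_exp.2 hSc2
      have h4 : X ^ (1 / 100 : ℝ) = Real.exp (1 / 100 * y) := by
        rw [Real.rpow_def_of_pos hXp, ← hyd, mul_comm]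
      rw [h4]
      have hs := Real.sqrt_nonneg (Zb * Zc)
      have he1 := Real.exp_nonneg (1 / 100 * y)
      calc ((Bd : ℝ) * (2 * y + 1)) ^ (k + k') * (2 ^ S.card * (Real.sqrt (Zb * Zc) *
            ((2 * y + 1) ^ (k + k') * Real.exp (1 / 100 * y)))) =
            (((Bd : ℝ) * (2 * y + 1)) ^ (k + k') * (2 * y + 1) ^ (k + k')) * (2 ^ S.card *
              (Real.sqrt (Zb * Zc) * Real.exp (1 / 100 * y))) := by ring
        _ ≤ _ := by
            refine mul_le_mul h2 ?_ (by positivity) (by positivity)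
            exact mul_le_mul_of_nonneg_right h3 (by positivity)
    · intro f hf
      rw [Finset.mem_filter, Prod.mk.injEq] at hf
      obtain ⟨hf1, hf2, hf3⟩ := hf
      obtain ⟨h1, h2, h3, h4, h5, -⟩ := hF f hf1
      obtain ⟨g1, g2, g3⟩ := hch f hf1
      exact ⟨hf2, hf3, fun p hp => ⟨(h3 p hp).1, (h3 p hp).2.1, hlogp p (h3 p hp).2.2⟩,
        h4, h5, g1, g2, g3⟩

end Pool.Agent.H83.AG
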